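import Pool.Agent.N554.HVZ.Def

set_option autoImplicit false

/-!
# The function `N` (occurrences of `ab` minus occurrences of `ba`)
-/

namespace Pool.Agent.N854.HVZ

open Pool.Agent.N554.HVZ

theorem g_anti : ∀ x y : Fin 3, g y x = - g x y := by
  decide

theorem g_abs : ∀ x y : Fin 3, |g x y| ≤ 1 := by
  decide

theorem N_append (x' : List (Fin 3)) (a b : Fin 3) (y' : List (Fin 3)) :
    N (x' ++ a :: b :: y') = N (x' ++ [a]) + g a b + N (b :: y') := by
  induction x' with
  | nil => simp [N]
  | cons c t ih =>
    cases t with
    | nil => simp [N]; ring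
    | cons d t' =>
      simp only [List.cons_append, N] at ih ⊢
      rw [ih]
      ring

theorem N_reverse (x : List (Fin 3)) : N x.reverse = - N x := by
  induction x with
  | nil => simp [N]
  | cons a t ih =>
    cases t with
    | nil => simp [N]
    | cons b t' =>
      have h1 : (a :: b :: t').reverse = t'.reverse ++ b :: a :: [] := by simp
      have h2 : (b :: t').reverse = t'.reverse ++ [b] := by simp
      rw [h1, N_append, ← h2, ih, g_anti a b]
      simp only [N]
      ring

theorem N_app (x y : List (Fin 3)) : |N (x ++ y) - N x - N y| ≤ 1 := by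
  rcases List.eq_nil_or_concat x with rfl | ⟨x', a, rfl⟩
  · simp [N]
  · cases y with
    | nil => simp [N]
    | cons b y' =>
      have h1 : (x'.concat a) ++ b :: y' = x' ++ a :: b :: y' := by simp
      have h2 : x'.concat a = x' ++ [a] := by simp
      rw [h1, N_append, h2]
      have h3 : N (x' ++ [a]) + g a b + N (b :: y') - N (x' ++ [a]) - N (b :: y') = g a b := by
        ring
      rw [h3]
      exact g_abs a b

theorem N_len (x : List (Fin 3)) : |N x| ≤ x.length := by
  induction x with
  | nil => simp [N]
  | cons a t ih =>
    cases t with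
    | nil => simp [N]
    | cons b t' =>
      have h1 : N (a :: b :: t') = g a b + N (b :: t') := rfl
      rw [h1]
      have h2 := abs_add_le (g a b) (N (b :: t'))
      have h3 := g_abs a b
      simp only [List.length_cons] at ih ⊢
      push_cast at ih ⊢
      linarith

theorem NL_proof : NL := by
  refine ⟨?_, N_app, N_len⟩
  intro x hx
  obtain ⟨n, hn, hr⟩ := List.isRotated_iff_mod.1 hx
  rw [List.rotate_eq_drop_append_take hn] at hr
  have h1 := N_app (x.take n) (x.drop n)
  have h2 := N_app (x.drop n) (x.take n)
  rw [List.take_append_drop] at h1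
  rw [hr, N_reverse] at h2
  rw [abs_le] at h1 h2 ⊢
  constructor <;> linarith [h1.1, h1.2, h2.1, h2.2, N_reverse x]

end Pool.Agent.N854.HVZ
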